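import Mathlib

set_option maxHeartbeats 400000

namespace Pool.Agent.Results.MP_baf67b_al.Dual

open Submodule

lemma loc (p : ℕ) (hp : p.Prime) (k : ℕ) : ∀ S : Set (ℕ → ℤ), (∀ s ∈ S, ∀ i ≥ k, s i = 0) →
    ∃ t : Finset (ℕ → ℤ), ↑t ⊆ S ∧ t.card ≤ k ∧ ∃ n : ℤ, ¬ (p : ℤ) ∣ n ∧
      ∀ s ∈ S, n • s ∈ span ℤ (t : Set (ℕ → ℤ)) := by
  classical
  have pp : Prime (p : ℤ) := Nat.prime_iff_prime_int.1 hp
  induction k with
  | zero =>
    exact fun S h => ⟨∅, by simp, le_rfl, 1, pp.not_dvd_one, fun s hs => by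
      rw [show s = 0 from funext fun i => h s hs i (Nat.zero_le _)]; simp⟩
  | succ k ih =>
    intro S h
    by_cases h0 : ∀ s ∈ S, s k = 0
    · obtain ⟨t, a, b, c⟩ := ih S fun s hs i hi => by
        rcases eq_or_lt_of_le hi with rfl | hi
        exacts [h0 s hs, h s hs i hi]
      exact ⟨t, a, b.trans (Nat.le_succ _), c⟩
    have ex : ∃ e : ℕ, ∃ s ∈ S, ¬ (p : ℤ) ^ (e + 1) ∣ s k := by
      push Not at h0
      obtain ⟨s, hs, h1⟩ := h0
      obtain ⟨e, he⟩ := FiniteMultiplicity.of_prime_left pp h1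
      exact ⟨e, s, hs, he⟩
    obtain ⟨s0, hs0, h1⟩ := Nat.find_spec ex
    have h2 : ∀ s ∈ S, ∃ q, s k = (p : ℤ) ^ Nat.find ex * q := fun s hs => by
      rcases h3 : Nat.find ex with _ | e
      · simp
      · by_contra h4
        exact Nat.find_min ex (m := e) (by omega) ⟨s, hs, h4⟩
    choose! q hq using h2
    let ψ : (ℕ → ℤ) → ℕ → ℤ := fun s => q s0 • s - q s • s0
    obtain ⟨t, a, b, n, c, d⟩ := ih (ψ '' S) (by
      rintro _ ⟨s, hs, rfl⟩ i hi
      change q s0 * s i - q s * s0 i = 0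
      rcases eq_or_lt_of_le hi with rfl | hi
      · rw [hq s hs, hq s0 hs0]; ring
      · rw [h s hs i hi, h s0 hs0 i hi]; ring)
    obtain ⟨t', a', rfl⟩ := Finset.subset_set_image_iff.1 a
    obtain ⟨u, a'', e⟩ := Finset.exists_subset_injOn_image_eq_of_surjOn (f := ψ) (t' : Set _) (t'.image ψ)
      (by simp [Set.SurjOn])
    have m0 : s0 ∈ span ℤ ((insert s0 u : Finset _) : Set (ℕ → ℤ)) := subset_span (by simp)
    refine ⟨insert s0 u, by rw [Finset.coe_insert]; exact Set.insert_subset hs0 (a''.trans a'), ?_,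
      n * q s0, fun h5 => (pp.dvd_or_dvd h5).elim c fun h6 => h1 ?_, fun s hs => ?_⟩
    · rw [← e.2, Finset.card_image_of_injOn e.1] at b
      exact (Finset.card_insert_le _ _).trans (by omega)
    · rw [hq s0 hs0, pow_succ]; exact mul_dvd_mul_left _ h6
    · have : n • ψ s ∈ span ℤ ((insert s0 u : Finset _) : Set (ℕ → ℤ)) := by
        refine span_le.2 ?_ (d _ ⟨s, hs, rfl⟩)
        rw [← e.2, Finset.coe_image]
        rintro _ ⟨x, hx, rfl⟩
        exact sub_mem (smul_mem _ _ (subset_span (by simp [Finset.mem_coe.1 hx]))) (smul_mem _ _ m0)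
      convert add_mem this (smul_mem _ (n * q s) m0) using 1
      simp only [ψ]; module

theorem result (K : Type) [Field K] [IsAlgClosed K] (X : Type) [AddCommGroup X] (r : ℕ)
    (v : Fin r → X) (hv : span ℤ (Set.range v) = ⊤) (ι : Type) [Fintype ι]
    (Λ : ι → Submodule ℤ X) (f : ι → X →ₗ[ℤ] Additive Kˣ)
    (h : ∀ J : Finset ι, J.card ≤ r + 1 → ∃ g : X →ₗ[ℤ] Additive Kˣ, ∀ i ∈ J, ∀ χ ∈ Λ i, g χ = f i χ) :
    ∃ g : X →ₗ[ℤ] Additive Kˣ, ∀ i, ∀ χ ∈ Λ i, g χ = f i χ := by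
  classical
  have key : ∀ l : ∀ i, Λ i, ∑ i, (l i : X) = 0 → ∑ i, f i (l i) = 0 := fun l hl => by
    by_contra h0
    obtain ⟨p, hp, hd⟩ := Nat.exists_prime_and_dvd (mt AddMonoid.addOrderOf_eq_one_iff.1 h0)
    let π : (ℕ → ℤ) →ₗ[ℤ] X := ∑ i : Fin r, (LinearMap.proj (i : ℕ)).smulRight (v i)
    obtain ⟨t, a, b, n, c, d⟩ := loc p hp r {x | (∀ i ≥ r, x i = 0) ∧ ∃ j, π x ∈ Λ j} fun s hs => hs.1
    have : ∀ x : t, ∃ j, π x ∈ Λ j := fun x => (a x.2).2
    choose j hj using this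
    have hJ : (Finset.univ.image j).card ≤ r := Finset.card_image_le.trans (by simpa using b)
    obtain ⟨g, hg⟩ := h _ (hJ.trans (Nat.le_succ _))
    have e : ∀ i, n • f i (l i) = n • g (l i) := fun i => by
      obtain ⟨g', hg'⟩ := h (insert i (Finset.univ.image j)) ((Finset.card_insert_le _ _).trans (by omega))
      obtain ⟨y, hy⟩ := (mem_span_range_iff_exists_fun ℤ).1 (hv ▸ mem_top : (l i : X) ∈ span ℤ (Set.range v))
      let x : ℕ → ℤ := fun m => if h : m < r then y ⟨m, h⟩ else 0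
      have hx : π x = l i := by simp [π, x, ← hy]
      have := LinearMap.eqOn_span (f := g' ∘ₗ π) (g := g ∘ₗ π) (s := (t : Set _)) (fun z hz =>
        (hg' (j ⟨z, hz⟩) (by simp) _ (hj ⟨z, hz⟩)).trans (hg (j ⟨z, hz⟩) (by simp) _ (hj ⟨z, hz⟩)).symm)
        (d x ⟨fun m hm => dif_neg (by omega), i, hx ▸ (l i).2⟩)
      simp only [map_smul, LinearMap.comp_apply, hx] at this
      rw [← this, hg' i (by simp) _ (l i).2]
    refine c ((Int.natCast_dvd_natCast.2 hd).trans (addOrderOf_dvd_iff_zsmul_eq_zero.2 ?_))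
    refine ((Finset.sum_zsmul _ _ n).symm.trans (Finset.sum_congr rfl fun i _ => e i)).trans
      ((Finset.sum_zsmul _ _ n).trans ?_)
    rw [← map_sum, hl, map_zero]; exact zsmul_zero n
  let _ : DivisibleBy (Additive Kˣ) ℕ := divisibleByOfSMulRightSurj _ _ fun {n} hn a => by
    obtain ⟨z, hz⟩ := IsAlgClosed.exists_pow_nat_eq ((Additive.toMul a : Kˣ) : K) (Nat.pos_of_ne_zero hn)
    have : z ≠ 0 := by rintro rfl; exact (Additive.toMul a).ne_zero (by rw [← hz, zero_pow hn])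
    exact ⟨Additive.ofMul (Units.mk0 z this), Additive.toMul.injective (Units.ext (by simpa using hz))⟩
  let _ := AddGroup.divisibleByIntOfDivisibleByNat (Additive Kˣ)
  let Φ : (∀ i, Λ i) →ₗ[ℤ] X × Additive Kˣ :=
    ∑ i, ((Λ i).subtype.prod (f i ∘ₗ (Λ i).subtype)) ∘ₗ LinearMap.proj i
  have hΦ : ∀ l, Φ l = (∑ i, (l i : X), ∑ i, f i (l i)) := fun l => by
    simp [Φ, Prod.ext_iff, Prod.fst_sum, Prod.snd_sum]
  obtain ⟨g, hg⟩ := (Module.Baer.of_divisible (Additive Kˣ)).extension_property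
    ((AddMonoidHom.fst X (Additive Kˣ)).toIntLinearMap ∘ₗ Φ.range.subtype) ((injective_iff_map_eq_zero _).2 (by
      rintro ⟨_, l, rfl⟩ hl
      have h1 : ∑ i, (l i : X) = 0 := (congrArg Prod.fst (hΦ l)).symm.trans hl
      exact Subtype.ext (by simp [hΦ, h1, key l h1]))) 
    ((AddMonoidHom.snd X (Additive Kˣ)).toIntLinearMap ∘ₗ Φ.range.subtype)
  refine ⟨g, fun i χ hχ => ?_⟩
  have : g (Φ (Pi.single i ⟨χ, hχ⟩)).1 = (Φ (Pi.single i ⟨χ, hχ⟩)).2 :=
    LinearMap.congr_fun hg ⟨_, Pi.single i ⟨χ, hχ⟩, rfl⟩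
  simp only [hΦ] at this
  rwa [Finset.sum_eq_single i (fun j _ e => by simp [e]) (by simp),
    Finset.sum_eq_single i (fun j _ e => by simp [e]) (by simp), Pi.single_eq_same] at this

end Pool.Agent.Results.MP_baf67b_al.Dual
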